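import Pool.Agent.helper56.P3.Defs2
import Mathlib

/-!
# P3: module La, the symmetric coordinate and sums over roots of unity
-/

namespace Pool.Agent.helper56.P3

open Finset Pool.Agent.helper56.Per

section L

variable {k K : Type*} [Field k] [Field K] [Algebra k K]
  {P : ValuationSubring K} {b c τ β S : K} {n m q : ℕ}

/-- `|u^n - 1| ≤ r` if `|u| = 1`, `|u - 1| ≤ r` -/
theorem La_pow_sub_one_le {Γ : Type*} [LinearOrderedCommGroupWithZero Γ] {v : Valuation K Γ}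
    {u : K} {r : Γ} (hu : v u = 1) (hr : v (u - 1) ≤ r) (n : ℕ) : v (u ^ n - 1) ≤ r := by
  induction n with
  | zero => rw [pow_zero, sub_self, map_zero]; exact zero_le
  | succ n ih =>
    have e : u ^ (n + 1) - 1 = u ^ n * (u - 1) + (u ^ n - 1) := by ring
    rw [e]
    refine v.map_add_le ?_ ih
    rw [map_mul, map_pow, hu, one_pow, one_mul]; exact hr

theorem sym_exists {Γ : Type*} [LinearOrderedCommGroupWithZero Γ] {v : Valuation K Γ}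
    [IsAlgClosed K] (hc : Ctx v b c) (hz : CharZ v) (hr : Rot v b c q) :
    ∃ τ β S, Sym v b c τ β S q ∧ v (S - TT b c q) < 1 := by
  have h2 : v (2 : K) = 1 := by simpa using hz 2 (by norm_num)
  have h20 : (2 : K) ≠ 0 := by
    intro h; rw [h, map_zero] at h2; exact zero_ne_one h2
  have hb0 : b ≠ 0 := by
    intro h; have := hc.vb; rw [h, map_zero] at this; exact zero_ne_one this
  have hc0 := hc.c0
  -- the coordinate `τ`
  obtain ⟨τ, hτ, hτ1⟩ : ∃ τ : K, c * (1 + τ ^ 2) = 2 * τ ∧ v τ < 1 := by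
    obtain ⟨d, hd⟩ := IsAlgClosed.exists_pow_nat_eq (1 - c ^ 2) (n := 2) (by norm_num)
    set t1 := (1 + d) / c with ht1
    set t2 := (1 - d) / c with ht2
    have e1 : c * (1 + t1 ^ 2) = 2 * t1 := by
      rw [ht1]; field_simp; linear_combination hd
    have e2 : c * (1 + t2 ^ 2) = 2 * t2 := by
      rw [ht2]; field_simp; linear_combination hd
    have ep : t1 * t2 = 1 := by
      rw [ht1, ht2]; field_simp; linear_combination -hd
    have es : t1 + t2 = 2 / c := by rw [ht1, ht2]; field_simp; ring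
    have hbig : 1 < v (t1 + t2) := by
      rw [es, map_div₀, h2, one_div]
      exact (one_lt_inv₀ (by rw [zero_lt_iff]; simpa using hc0)).2 hc.vc
    have hm : v t1 * v t2 = 1 := by rw [← map_mul, ep, map_one]
    have hn1 : v t1 ≠ 0 := by intro h; rw [h, zero_mul] at hm; exact zero_ne_one hm
    have hn2 : v t2 ≠ 0 := by intro h; rw [h, mul_zero] at hm; exact zero_ne_one hm
    rcases lt_or_ge (v t1) 1 with h | h
    · exact ⟨t1, e1, h⟩
    · rcases lt_or_ge (v t2) 1 with h' | h'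
      · exact ⟨t2, e2, h'⟩
      · exfalso
        have h3 : v t1 ≤ 1 := by
          calc v t1 = v t1 * 1 := (mul_one _).symm
            _ ≤ v t1 * v t2 := by gcongr
            _ = 1 := hm
        have h4 : v t2 ≤ 1 := by
          calc v t2 = 1 * v t2 := (one_mul _).symm
            _ ≤ v t1 * v t2 := by gcongr
            _ = 1 := hm
        exact absurd (v.map_add_le h3 h4) (not_le.2 hbig)
  have hτ2 : v (τ ^ 2) < 1 := by rw [map_pow]; exact pow_lt_one₀ zero_le hτ1 (by norm_num)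
  have hp : v (1 + τ ^ 2) = 1 := by
    rw [Valuation.map_add_eq_of_lt_left _ (by rw [map_one]; exact hτ2), map_one]
  have hmn : v (1 - τ ^ 2) = 1 := by
    rw [Valuation.map_sub_eq_of_lt_left _ (by rw [map_one]; exact hτ2), map_one]
  have hp0 : (1 + τ ^ 2 : K) ≠ 0 := by intro h; rw [h, map_zero] at hp; exact zero_ne_one hp
  have hm0 : (1 - τ ^ 2 : K) ≠ 0 := by intro h; rw [h, map_zero] at hmn; exact zero_ne_one hmn
  have hvc : v c = v τ := by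
    have := congrArg v hτ
    rw [map_mul, map_mul, hp, h2, mul_one, one_mul] at this; exact this
  have hτ0 : τ ≠ 0 := by
    intro h; rw [h, map_zero] at hvc; exact hc0 ((map_eq_zero v).1 hvc)
  set u : K := (1 + τ ^ 2) / (1 - τ ^ 2) with hu
  have hu1 : v u = 1 := by rw [hu, map_div₀, hp, hmn, div_one]
  have hu0 : u ≠ 0 := by intro h; rw [h, map_zero] at hu1; exact zero_ne_one hu1
  have hui : v (u⁻¹ - 1) ≤ v τ ^ 2 := by
    have e : u⁻¹ - 1 = -(2 * τ ^ 2) / (1 + τ ^ 2) := by rw [hu]; field_simp; ring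
    rw [e, map_div₀, hp, div_one, Valuation.map_neg, map_mul, h2, one_mul, map_pow]
  have huq : v (u⁻¹ ^ q - 1) ≤ v τ ^ 2 :=
    La_pow_sub_one_le (by rw [map_inv₀, hu1, inv_one]) hui q
  have hbq : v (b⁻¹ ^ q) = 1 := by rw [map_pow, map_inv₀, hc.vb, inv_one, one_pow]
  have hB1 : v (1 - b⁻¹ ^ q) ≤ v τ := by
    have e : 1 - b⁻¹ ^ q = b⁻¹ ^ q * (b ^ q - 1) := by
      rw [mul_sub, mul_one, ← mul_pow, inv_mul_cancel₀ hb0, one_pow]
    rw [e, map_mul, hbq, one_mul, ← hvc]; exact hr.le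
  set β : K := b * u with hβ
  have hβ0 : β ≠ 0 := mul_ne_zero hb0 hu0
  have hττ : v τ ^ 2 ≤ v τ := by
    rw [sq]; calc v τ * v τ ≤ v τ * 1 := by gcongr
      _ = v τ := mul_one _
  have hβq : β⁻¹ ^ q = b⁻¹ ^ q + b⁻¹ ^ q * (u⁻¹ ^ q - 1) := by
    rw [hβ, mul_inv, mul_pow]; ring
  have hx2 : v (b⁻¹ ^ q * (u⁻¹ ^ q - 1)) ≤ v τ ^ 2 := by
    rw [map_mul, hbq, one_mul]; exact huq
  have hβ1 : v (1 - β⁻¹ ^ q) ≤ v τ := by
    have e : 1 - β⁻¹ ^ q = (1 - b⁻¹ ^ q) - b⁻¹ ^ q * (u⁻¹ ^ q - 1) := by rw [hβq]; ring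
    rw [e]
    exact (v.map_sub _ _).trans (max_le hB1 (hx2.trans hττ))
  have hβ2 : v (1 + β⁻¹ ^ q) = 1 := by
    have e : 1 + β⁻¹ ^ q = 2 - (1 - β⁻¹ ^ q) := by ring
    rw [e, Valuation.map_sub_eq_of_lt_left _ (by rw [h2]; exact lt_of_le_of_lt hβ1 hτ1), h2]
  have hβ20 : (1 + β⁻¹ ^ q : K) ≠ 0 := by
    intro h; rw [h, map_zero] at hβ2; exact zero_ne_one hβ2
  set S : K := (1 - β⁻¹ ^ q) / (τ * (1 + β⁻¹ ^ q)) with hS
  have hvτ0 : v τ ≠ 0 := (_root_.map_ne_zero v).2 hτ0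
  refine ⟨τ, β, S, ⟨hτ0, hτ1, hτ, ?_, ?_⟩, ?_⟩
  · rw [hβ, hu]; field_simp
  · have e : τ * S = (1 - β⁻¹ ^ q) / (1 + β⁻¹ ^ q) := by rw [hS]; field_simp
    rw [e]
    generalize β⁻¹ ^ q = y at hβ20
    field_simp; ring
  · have hcc : c = 2 * τ / (1 + τ ^ 2) := by rw [eq_div_iff hp0]; exact hτ
    have e : S - TT b c q = (1 - β⁻¹ ^ q) / τ * ((1 - β⁻¹ ^ q) / (2 * (1 + β⁻¹ ^ q)))
        - b⁻¹ ^ q * (u⁻¹ ^ q - 1) / (2 * τ) - τ * (1 - b⁻¹ ^ q) / 2 := by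
      have e1 : b⁻¹ ^ q * (u⁻¹ ^ q - 1) = β⁻¹ ^ q - b⁻¹ ^ q := by rw [hβq]; ring
      rw [e1, TT, hS, hcc]
      generalize β⁻¹ ^ q = y at hβ20
      generalize b⁻¹ ^ q = z
      field_simp; ring
    rw [e]
    have g1 : v ((1 - β⁻¹ ^ q) / τ * ((1 - β⁻¹ ^ q) / (2 * (1 + β⁻¹ ^ q)))) < 1 := by
      rw [map_mul, map_div₀, map_div₀, map_mul, h2, hβ2, mul_one, div_one]
      have g : v (1 - β⁻¹ ^ q) / v τ ≤ 1 := by
        rw [div_le_one₀ (zero_lt_iff.2 hvτ0)]; exact hβ1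
      calc v (1 - β⁻¹ ^ q) / v τ * v (1 - β⁻¹ ^ q) ≤ 1 * v (1 - β⁻¹ ^ q) := by gcongr
        _ = v (1 - β⁻¹ ^ q) := one_mul _
        _ ≤ v τ := hβ1
        _ < 1 := hτ1
    have g2 : v (b⁻¹ ^ q * (u⁻¹ ^ q - 1) / (2 * τ)) < 1 := by
      rw [map_div₀, map_mul _ 2 τ, h2, one_mul]
      refine lt_of_le_of_lt ?_ hτ1
      rw [div_le_iff₀ (zero_lt_iff.2 hvτ0), ← sq]; exact hx2
    have g3 : v (τ * (1 - b⁻¹ ^ q) / 2) < 1 := by
      rw [map_div₀, h2, div_one, map_mul]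
      calc v τ * v (1 - b⁻¹ ^ q) ≤ v τ * 1 := by gcongr; exact hB1.trans hτ1.le
        _ = v τ := mul_one _
        _ < 1 := hτ1
    exact v.map_sub_lt (v.map_sub_lt g1 g2) g3

/-- orthogonality -/
theorem La_sum_pow_orth [CharZero k] {ζ : k} (hq : 0 < q) (hζ : IsPrimitiveRoot ζ q) {i j : ℕ}
    (hi : i < q) (hj : j < q) :
    ∑ l ∈ range q, (ζ ^ l) ^ j * ((ζ ^ l)⁻¹) ^ i = if i = j then (q : k) else 0 := by
  have hζ0 : ζ ≠ 0 := hζ.ne_zero hq.ne'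
  have e : ∀ l ∈ range q, (ζ ^ l) ^ j * ((ζ ^ l)⁻¹) ^ i = (ζ ^ j * (ζ ^ i)⁻¹) ^ l := by
    intro l _
    rw [mul_pow, inv_pow, inv_pow, ← pow_mul, ← pow_mul, ← pow_mul, ← pow_mul, mul_comm l j,
      mul_comm l i]
  rw [sum_congr rfl e]
  by_cases h : i = j
  · subst h
    rw [if_pos rfl, mul_inv_cancel₀ (pow_ne_zero _ hζ0)]
    simp
  · rw [if_neg h]
    have h1 : ζ ^ j * (ζ ^ i)⁻¹ ≠ 1 := by
      intro h2
      have h3 : ζ ^ j = ζ ^ i := by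
        have := mul_inv_eq_one₀ (pow_ne_zero i hζ0) |>.1 h2
        exact this
      exact h (hζ.pow_inj hi hj h3.symm)
    rw [geom_sum_eq h1]
    have h4 : (ζ ^ j * (ζ ^ i)⁻¹) ^ q = 1 := by
      rw [mul_pow, inv_pow, ← pow_mul, ← pow_mul, mul_comm j q, mul_comm i q, pow_mul, pow_mul,
        hζ.pow_eq_one, one_pow, one_pow, inv_one, mul_one]
    rw [h4, sub_self, zero_div]

theorem La_sum_range_cast (q : ℕ) [CharZero k] :
    ∑ j ∈ range q, (j : k) = (q : k) * (q - 1) / 2 := by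
  induction q with
  | zero => simp
  | succ q ih => rw [sum_range_succ, ih]; push_cast; ring

theorem La_sum_range_sq_cast (q : ℕ) [CharZero k] :
    ∑ j ∈ range q, (j : k) ^ 2 = (q : k) * (q - 1) * (2 * q - 1) / 6 := by
  induction q with
  | zero => simp
  | succ q ih => rw [sum_range_succ, ih]; push_cast; ring

/-- `1/(1-x)` for a root of unity `x` -/
theorem La_inv_one_sub_root [CharZero k] {x : k} (hq : 0 < q) (hx : x ^ q = 1) (hx1 : x ≠ 1) :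
    (1 - x)⁻¹ = -(∑ j ∈ range q, (j : k) * x ^ j) / q := by
  have h1 : (1 - x) ≠ 0 := sub_ne_zero.2 (Ne.symm hx1)
  have hq0 : (q : k) ≠ 0 := by exact_mod_cast hq.ne'
  have key : ∀ n : ℕ, (1 - x) * ∑ j ∈ range n, (j : k) * x ^ j
      = (∑ j ∈ range (n + 1), x ^ j) - 1 - (n : k) * x ^ n := by
    intro n
    induction n with
    | zero => simp
    | succ n ih =>
      rw [sum_range_succ, mul_add, ih, sum_range_succ _ (n + 1)]
      push_cast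
      ring
  have h2 : ∑ j ∈ range (q + 1), x ^ j = 1 := by
    rw [sum_range_succ, hx, geom_sum_eq hx1, hx, sub_self, zero_div, zero_add]
  have h3 := key q
  rw [h2, hx, mul_one, sub_self, zero_sub] at h3
  rw [inv_eq_iff_eq_inv, ← one_div, eq_div_iff (by
    intro h
    rw [neg_div, neg_eq_zero, div_eq_zero_iff] at h
    rcases h with h | h
    · rw [h, mul_zero] at h3; exact hq0 (neg_eq_zero.1 h3.symm)
    · exact hq0 h)]
  rw [neg_div, mul_neg, mul_div_assoc', h3, neg_div, neg_neg, div_self hq0]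

theorem La_sum_Ico_reflect (f : ℕ → k) :
    ∑ l ∈ Ico 1 q, f (q - l) = ∑ l ∈ Ico 1 q, f l := by
  refine sum_nbij' (fun l => q - l) (fun l => q - l) ?_ ?_ ?_ ?_ ?_
  · intro l hl; rw [mem_Ico] at hl ⊢; omega
  · intro l hl; rw [mem_Ico] at hl ⊢; omega
  · intro l hl; rw [mem_Ico] at hl; omega
  · intro l hl; rw [mem_Ico] at hl; omega
  · intro l hl; rfl

theorem La_root_sum_two [CharZero k] {ζ : k} (hq : 2 ≤ q) (hζ : IsPrimitiveRoot ζ q) :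
    ∑ l ∈ Ico 1 q, ((1 - ζ ^ l) * (1 - ζ⁻¹ ^ l))⁻¹ = ((q : k) ^ 2 - 1) / 12 := by
  have hq0 : (q : k) ≠ 0 := by
    have : q ≠ 0 := by omega
    exact_mod_cast this
  have hζ0 : ζ ≠ 0 := hζ.ne_zero (by omega)
  set F : ℕ → k := fun l => (∑ j ∈ range q, (j : k) * (ζ ^ l) ^ j)
    * (∑ j ∈ range q, (j : k) * ((ζ ^ l)⁻¹) ^ j) with hF
  have h1 : ∀ l ∈ Ico 1 q, ((1 - ζ ^ l) * (1 - ζ⁻¹ ^ l))⁻¹ = F l / (q : k) ^ 2 := by
    intro l hl
    rw [mem_Ico] at hl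
    have hne : ζ ^ l ≠ 1 := hζ.pow_ne_one_of_pos_of_lt (by omega) hl.2
    have hp : (ζ ^ l) ^ q = 1 := by rw [← pow_mul, mul_comm, pow_mul, hζ.pow_eq_one, one_pow]
    have hne' : (ζ ^ l)⁻¹ ≠ 1 := by rw [Ne, inv_eq_one]; exact hne
    have hp' : ((ζ ^ l)⁻¹) ^ q = 1 := by rw [inv_pow, hp, inv_one]
    rw [mul_inv, La_inv_one_sub_root (by omega) hp hne, inv_pow,
      La_inv_one_sub_root (by omega) hp' hne', hF]
    field_simp
  rw [sum_congr rfl h1, ← sum_div]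
  have h2 : ∑ l ∈ range q, F l = (q : k) * ∑ j ∈ range q, (j : k) ^ 2 := by
    have e : ∀ l ∈ range q, F l = ∑ j ∈ range q, ∑ i ∈ range q,
        ((j : k) * i) * ((ζ ^ l) ^ j * ((ζ ^ l)⁻¹) ^ i) := by
      intro l _
      rw [hF]; dsimp only
      rw [sum_mul_sum]
      refine sum_congr rfl fun j _ => sum_congr rfl fun i _ => ?_
      ring
    rw [sum_congr rfl e, sum_comm, mul_sum]
    refine sum_congr rfl fun j hj => ?_
    rw [sum_comm]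
    have e2 : ∀ i ∈ range q, ∑ l ∈ range q, ((j : k) * i) * ((ζ ^ l) ^ j * ((ζ ^ l)⁻¹) ^ i)
        = if i = j then (q : k) * (j : k) ^ 2 else 0 := by
      intro i hi
      rw [← mul_sum, La_sum_pow_orth (by omega) hζ (mem_range.1 hi) (mem_range.1 hj)]
      by_cases h : i = j
      · subst h; rw [if_pos rfl, if_pos rfl]; ring
      · rw [if_neg h, if_neg h, mul_zero]
    rw [sum_congr rfl e2, sum_ite_eq' (range q) j, if_pos hj]
  have h3 : ∑ l ∈ range q, F l = F 0 + ∑ l ∈ Ico 1 q, F l := by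
    rw [range_eq_Ico, sum_eq_sum_Ico_succ_bot (by omega)]
  have h4 : F 0 = (∑ j ∈ range q, (j : k)) ^ 2 := by
    rw [hF]; simp [sq]
  have h5 : ∑ l ∈ Ico 1 q, F l = (q : k) * ∑ j ∈ range q, (j : k) ^ 2
      - (∑ j ∈ range q, (j : k)) ^ 2 := by
    rw [← h2, h3, h4]; ring
  rw [h5, La_sum_range_cast, La_sum_range_sq_cast]
  field_simp
  ring

/-- sums over roots of unity -/
theorem root_sums [CharZero k] {ζ : k} (hq : 2 ≤ q) (hζ : IsPrimitiveRoot ζ q) :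
    ∑ l ∈ Ico 1 q, (1 + ζ⁻¹ ^ l) / (1 - ζ⁻¹ ^ l) = 0 ∧
    ∑ l ∈ Ico 1 q, ((1 - ζ ^ l) * (1 - ζ⁻¹ ^ l))⁻¹ = ((q : k) ^ 2 - 1) / 12 ∧
    ∑ l ∈ Ico 1 q, (l : k) * ((1 - ζ ^ l) * (1 - ζ⁻¹ ^ l))⁻¹
      = (q : k) * (((q : k) ^ 2 - 1) / 24) ∧
    ∑ l ∈ Ico 1 q, ((1 + ζ⁻¹ ^ l) / (1 - ζ⁻¹ ^ l)) ^ 2
      = ((q : k) - 1) - ((q : k) ^ 2 - 1) / 3 := by
  have hζ0 : ζ ≠ 0 := hζ.ne_zero (by omega)
  have hne : ∀ l, 1 ≤ l → l < q → ζ ^ l ≠ 1 := fun l h1 h2 =>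
    hζ.pow_ne_one_of_pos_of_lt (by omega) h2
  have hrefl : ∀ l, 1 ≤ l → l < q → ζ ^ (q - l) = ζ⁻¹ ^ l := by
    intro l _ h2
    rw [inv_pow]
    refine eq_inv_of_mul_eq_one_left ?_
    rw [← pow_add, show q - l + l = q by omega, hζ.pow_eq_one]
  have hrefl' : ∀ l, 1 ≤ l → l < q → ζ⁻¹ ^ (q - l) = ζ ^ l := by
    intro l h1 h2
    rw [inv_pow, hrefl l h1 h2, inv_pow, inv_inv]
  have h2 := La_root_sum_two hq hζ
  refine ⟨?_, h2, ?_, ?_⟩
  · have e := La_sum_Ico_reflect (q := q) (fun l => (1 + ζ⁻¹ ^ l) / (1 - ζ⁻¹ ^ l))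
    have e2 : ∑ l ∈ Ico 1 q, (1 + ζ⁻¹ ^ (q - l)) / (1 - ζ⁻¹ ^ (q - l))
        = -∑ l ∈ Ico 1 q, (1 + ζ⁻¹ ^ l) / (1 - ζ⁻¹ ^ l) := by
      rw [← sum_neg_distrib]
      refine sum_congr rfl fun l hl => ?_
      rw [mem_Ico] at hl
      rw [hrefl' l hl.1 hl.2, inv_pow]
      have h1 := hne l hl.1 hl.2
      have h0 : ζ ^ l ≠ 0 := pow_ne_zero _ hζ0
      generalize ζ ^ l = x at h1 h0
      have h3 : 1 - x ≠ 0 := sub_ne_zero.2 (Ne.symm h1)
      have h4 : 1 - x⁻¹ ≠ 0 := by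
        rw [sub_ne_zero, Ne, eq_comm, inv_eq_one]; exact h1
      have h5 : x - 1 ≠ 0 := sub_ne_zero.2 h1
      rw [← neg_div, div_eq_div_iff h3 h4]
      field_simp
      ring
    rw [e2] at e
    have h3 := self_eq_neg.1 e.symm
    exact h3
  · have e := La_sum_Ico_reflect (q := q) (fun l => (l : k) * ((1 - ζ ^ l) * (1 - ζ⁻¹ ^ l))⁻¹)
    have e2 : ∑ l ∈ Ico 1 q, ((q - l : ℕ) : k) * ((1 - ζ ^ (q - l)) * (1 - ζ⁻¹ ^ (q - l)))⁻¹
        = (q : k) * ∑ l ∈ Ico 1 q, ((1 - ζ ^ l) * (1 - ζ⁻¹ ^ l))⁻¹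
          - ∑ l ∈ Ico 1 q, (l : k) * ((1 - ζ ^ l) * (1 - ζ⁻¹ ^ l))⁻¹ := by
      rw [mul_sum, ← sum_sub_distrib]
      refine sum_congr rfl fun l hl => ?_
      rw [mem_Ico] at hl
      rw [hrefl' l hl.1 hl.2, hrefl l hl.1 hl.2, Nat.cast_sub hl.2.le,
        mul_comm (1 - ζ⁻¹ ^ l)]
      ring
    rw [e2, h2] at e
    linear_combination -e / 2
  · have e : ∀ l ∈ Ico 1 q, ((1 + ζ⁻¹ ^ l) / (1 - ζ⁻¹ ^ l)) ^ 2
        = 1 - 4 * ((1 - ζ ^ l) * (1 - ζ⁻¹ ^ l))⁻¹ := by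
      intro l hl
      rw [mem_Ico] at hl
      have h1 := hne l hl.1 hl.2
      have h0 : ζ ^ l ≠ 0 := pow_ne_zero _ hζ0
      rw [inv_pow]
      generalize ζ ^ l = x at h1 h0
      have h3 : 1 - x ≠ 0 := sub_ne_zero.2 (Ne.symm h1)
      have h5 : x - 1 ≠ 0 := sub_ne_zero.2 h1
      have h4 : 1 - x⁻¹ = (x - 1) / x := by field_simp
      have h6 : 1 + x⁻¹ = (x + 1) / x := by field_simp
      rw [h4, h6]
      field_simp
      ring
    rw [sum_congr rfl e, sum_sub_distrib, ← mul_sum, h2]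
    simp only [sum_const, Nat.card_Ico, nsmul_eq_mul, mul_one]
    rw [Nat.cast_sub (by omega)]
    push_cast
    ring

end L

end Pool.Agent.helper56.P3
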